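import Mathlib

set_option autoImplicit false

namespace Pool.Agent.Results.MP_3ac9ea_co.Stable

open Finset

/-- A restricted growth function of length `n` (the empty maximum is `0`). -/
def IsRGF {n : ℕ} (w : Fin n → ℕ) : Prop := ∀ i, 1 ≤ w i ∧ w i ≤ 1 + (Iio i).sup w

def Avoids {n : ℕ} (w : Fin n → ℕ) : Prop :=
  ¬ ∃ a b c d, a < b ∧ b < c ∧ c < d ∧ w a = w d ∧ w b = w c ∧ w a < w b

/-- The number of distinct larger values to the right, summed over all positions. -/
def rb {n : ℕ} (w : Fin n → ℕ) : ℕ := ∑ j, #(({i | j < i ∧ w j < w i} : Finset (Fin n)).image w)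

/-- The words counted by the coefficient of `q ^ k` in `RB_n(1221)`. -/
def R (n k : ℕ) : Set (Fin n → ℕ) := {w | IsRGF w ∧ Avoids w ∧ rb w = k}

theorem first {n : ℕ} {w : Fin n → ℕ} (hw : IsRGF w) (y : ℕ) (hy : 1 ≤ y) :
    ∀ i, y < w i → ∃ j < i, w j = y := by
  intro i
  induction i using WellFoundedLT.induction with
  | ind i ih =>
    intro h
    have h2 : y - 1 < (Iio i).sup w := by have := (hw i).2; omega
    obtain ⟨j, hj, h3⟩ := Finset.lt_sup_iff.1 h2
    rcases (show w j = y ∨ y < w j by omega) with h4 | h4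
    · exact ⟨j, mem_Iio.1 hj, h4⟩
    · obtain ⟨l, hl, h5⟩ := ih j (mem_Iio.1 hj) h4
      exact ⟨l, hl.trans (mem_Iio.1 hj), h5⟩

theorem few {n : ℕ} (w : Fin n → ℕ) (A : Finset (Fin n)) (h : ∀ j ∈ A, ∃ i, j < i ∧ w j < w i) :
    #A ≤ rb w := by
  rw [card_eq_sum_ones]
  refine le_trans (sum_le_sum fun j hj => ?_) (sum_le_sum_of_subset (subset_univ A))
  obtain ⟨i, hi⟩ := h j hj
  exact card_pos.2 ⟨w i, mem_image_of_mem _ (by simpa using hi)⟩

theorem tail {n k : ℕ} (hn : 3 * k + 2 ≤ n) {w : Fin (n + 2) → ℕ} (hw : w ∈ R (n + 2) k) :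
    w (Fin.last (n + 1)) = w (Fin.last n).castSucc := by
  obtain ⟨h1, h2, h3⟩ := hw
  set l := Fin.last (n + 1)
  set p : Fin (n + 2) := (Fin.last n).castSucc
  have hl : ∀ j, j ≠ l → j < l := fun j hj => lt_of_le_of_ne (Fin.le_last j) hj
  have hp : ∀ j, j ≠ l → j ≠ p → j < p := fun j h h' => by
    have := hl j h
    have : j.val ≠ n := fun e => h' (Fin.ext e)
    show j.val < n
    have : j.val < n + 1 := hl j h
    omega
  by_contra hne
  have a1 : #({j | w j < w l} : Finset _) ≤ k := h3 ▸ few w _ fun j hj => by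
    have := (mem_filter.1 hj).2
    exact ⟨l, hl j (by rintro rfl; omega), this⟩
  have a2 : #({j | w l < w j} : Finset _) ≤ k := by
    have h0 : w 0 = 1 := by
      have := h1 0
      rw [show Iio (0 : Fin (n + 2)) = ∅ from Iio_bot, sup_empty] at this
      exact le_antisymm this.2 this.1
    refine le_trans ?_ ((single_le_sum (f := fun j =>
      #(({i | j < i ∧ w j < w i} : Finset _).image w)) (fun _ _ => Nat.zero_le _)
      (mem_univ 0)).trans h3.le)
    refine card_le_card_of_injOn w (fun j hj => ?_) fun i hi j hj e => ?_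
    · have h4 : w l < w j := by simpa using hj
      have h5 := (h1 l).1
      exact mem_coe.2 (mem_image_of_mem _ (by
        simpa using ⟨Fin.pos_iff_ne_zero.2 (by rintro rfl; omega), by omega⟩))
    · have key : ∀ i j, w l < w i → w i = w j → ¬ i < j := fun i j hi e hij => by
        obtain ⟨a, ha, h6⟩ := first h1 _ (h1 l).1 i hi
        exact h2 ⟨a, i, j, l, ha, hij, hl j (by rintro rfl; omega), h6, e, by omega⟩
      exact le_antisymm (not_lt.1 (key j i (by simpa using hj) e.symm))
        (not_lt.1 (key i j (by simpa using hi) e))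
  have a3 : #(({j | w j = w l} : Finset _).erase l) ≤ k + 1 := by
    have hA : ∀ j ∈ ({j | w j = w l} : Finset _).erase l, j < p ∧ w j = w l := fun j hj => by
      have h4 := (mem_filter.1 (mem_erase.1 hj).2).2
      exact ⟨hp j (mem_erase.1 hj).1 (by rintro rfl; exact hne h4.symm), h4⟩
    rcases lt_or_gt_of_ne hne with h | h
    · exact (h3 ▸ few w _ fun j hj => ⟨p, (hA j hj).1, (hA j hj).2 ▸ h⟩).trans (Nat.le_succ k)
    · refine le_trans (card_le_one.2 fun i hi j hj => ?_) (Nat.le_add_left 1 k)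
      have key : ∀ i j, w i = w l → w j = w l → j < p → ¬ i < j := fun i j hi hj hjp hij => by
        obtain ⟨a, ha, h6⟩ := first h1 _ (h1 p).1 i (by omega)
        exact h2 ⟨a, i, j, p, ha, hij, hjp, h6, by omega, by omega⟩
      exact le_antisymm (not_lt.1 (key j i (hA j hj).2 (hA i hi).2 (hA i hi).1))
        (not_lt.1 (key i j (hA i hi).2 (hA j hj).2 (hA j hj).1))
  have a4 : (univ : Finset (Fin (n + 2))) ⊆
      (({j | w j < w l} : Finset _) ∪ ({j | w l < w j} : Finset _)) ∪
      insert l (({j | w j = w l} : Finset _).erase l) := fun j _ => by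
    by_cases h : j = l
    · simp [h]
    · simp [h]; omega
  have a5 := (card_le_card a4).trans ((card_union_le _ _).trans
    (add_le_add (card_union_le _ _) (card_insert_le _ _)))
  rw [card_univ, Fintype.card_fin] at a5
  omega

theorem step {n k : ℕ} {w : Fin (n + 2) → ℕ}
    (h : w (Fin.last (n + 1)) = w (Fin.last n).castSucc) :
    w ∈ R (n + 2) k ↔ Fin.init w ∈ R (n + 1) k := by
  have hs : ∀ i : Fin (n + 1), (Iio i.castSucc).sup w = (Iio i).sup (Fin.init w) := fun i => by
    rw [← Fin.map_castSuccEmb_Iio, sup_map]; rfl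
  have hr : rb w = rb (Fin.init w) := by
    unfold rb
    rw [Fin.sum_univ_castSucc, show ({i | Fin.last (n + 1) < i ∧ w (Fin.last (n + 1)) < w i} :
      Finset _) = ∅ from filter_eq_empty_iff.2 fun i _ hi => absurd hi.1 (not_lt.2 (Fin.le_last i))]
    refine (add_zero _).trans (sum_congr rfl fun j _ => congrArg card ?_)
    ext y
    simp only [mem_image, mem_filter, mem_univ, true_and, Fin.init]
    constructor
    · rintro ⟨i, ⟨h1, h2⟩, rfl⟩
      induction i using Fin.lastCases with
      | last => exact ⟨Fin.last n, ⟨lt_of_le_of_ne (Fin.le_last j) (by rintro rfl; omega),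
          by omega⟩, h.symm⟩
      | cast i => exact ⟨i, ⟨by simpa using h1, h2⟩, rfl⟩
    · rintro ⟨i, ⟨h1, h2⟩, rfl⟩
      exact ⟨i.castSucc, ⟨by simpa using h1, h2⟩, rfl⟩
  refine and_congr ⟨fun h1 i => hs i ▸ h1 i.castSucc, fun h1 i => ?_⟩
    (and_congr (not_congr ⟨?_, ?_⟩) (by rw [hr]))
  · induction i using Fin.lastCases with
    | last =>
      have := le_sup (f := w) (mem_Iio.2 (Fin.castSucc_lt_last (Fin.last n)))
      have h2 : 1 ≤ w (Fin.last n).castSucc := (h1 (Fin.last n)).1
      omega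
    | cast i => exact hs i ▸ h1 i
  · rintro ⟨a, b, c, d, h1, h2, h3, h4, h5, h6⟩
    obtain ⟨c, rfl⟩ := Fin.exists_castSucc_eq.2 (h3.trans_le (Fin.le_last d)).ne
    obtain ⟨b, rfl⟩ := Fin.exists_castSucc_eq.2 (h2.trans (Fin.castSucc_lt_last c)).ne
    obtain ⟨a, rfl⟩ := Fin.exists_castSucc_eq.2 (h1.trans (Fin.castSucc_lt_last b)).ne
    induction d using Fin.lastCases with
    | last => exact ⟨a, b, c, Fin.last n, by simpa using h1, by simpa using h2,
        lt_of_le_of_ne (Fin.le_last c) (by rintro rfl; omega), h4.trans h, h5, h6⟩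
    | cast d => exact ⟨a, b, c, d, by simpa using h1, by simpa using h2, by simpa using h3,
        h4, h5, h6⟩
  · rintro ⟨a, b, c, d, h1, h2, h3, h4, h5, h6⟩
    exact ⟨a.castSucc, b.castSucc, c.castSucc, d.castSucc, by simpa using h1, by simpa using h2,
      by simpa using h3, h4, h5, h6⟩

theorem result (k : ℕ) : ∃ N, ∀ n ≥ N, (R n k).Finite ∧ (R n k).ncard = (R N k).ncard := by
  refine ⟨3 * k + 3, fun n hn => ⟨?_, ?_⟩⟩
  · refine (Set.Finite.pi' fun _ : Fin n => Set.finite_Iic (k + 1)).subset fun w hw i => ?_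
    have := few w ((Icc 1 (w i - 1)).attach.image fun y =>
      (first hw.1 y.1 (mem_Icc.1 y.2).1 i (by have := mem_Icc.1 y.2; omega)).choose) ?_
    · rw [card_image_of_injective] at this
      · have h3 := hw.2.2
        simp at this
        show w i ≤ k + 1
        omega
      · intro y z e
        exact Subtype.ext ((Exists.choose_spec (p := fun j => j < i ∧ w j = y.1) _).2.symm.trans
          ((congrArg w e).trans (Exists.choose_spec (p := fun j => j < i ∧ w j = z.1) _).2))
    · intro j hj
      obtain ⟨y, -, rfl⟩ := mem_image.1 hj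
      have h1 := (first hw.1 y.1 (mem_Icc.1 y.2).1 i (by have := mem_Icc.1 y.2; omega)).choose_spec
      have := mem_Icc.1 y.2
      exact ⟨i, h1.1, by omega⟩
  · induction n, hn using Nat.le_induction with
    | base => rfl
    | succ n hn ih =>
      rw [← ih]
      obtain ⟨m, rfl⟩ : ∃ m, n = m + 1 := ⟨n - 1, by omega⟩
      refine Set.ncard_congr (fun w _ => Fin.init w) (fun w hw => (step (tail (by omega) hw)).1 hw)
        (fun v w hv hw e => ?_) fun u hu => ?_
      · funext i
        induction i using Fin.lastCases with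
        | last => rw [tail (by omega) hv, tail (by omega) hw]; exact congrFun e _
        | cast i => exact congrFun e i
      · exact ⟨Fin.snoc u (u (Fin.last m)), (step (by simp)).2 (by simpa using hu), by simp⟩

end Pool.Agent.Results.MP_3ac9ea_co.Stable
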